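import Pool.Agent.V1178.FH.Main

/-!
# The generalized Bloch conjecture and free groups of motivic automorphisms

Fix the dimension `n`, the codimension `m = n - i` and a class `P` of varieties (for example those
of Hodge coniveau `≥ c`, `c > i`). If `W` is a self-correspondence of degree zero of a variety `X` of
dimension `n` which factors through a variety of dimension `n` in `P`, and `W ∘ W = 0`, then `1 + W`
is an automorphism of the Chow motive of `X`, and the generalized Bloch conjecture predicts that it
acts trivially on the homologically trivial cycles of codimension `m` of `X`. It is shown that the
conjecture for `P` already follows if any two such automorphisms `1 + W_0`, `1 + W_1` satisfy a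
nontrivial relation there (which may depend on `X`, `W_0`, `W_1`), and even if they have no free
orbit on the lines of this space.
-/

set_option autoImplicit false

open CategoryTheory AlgebraicGeometry

universe u v w

namespace Pool.Agent.Results.MP_13bc1c_ag.FreeSubgroups

open Pool.Agent.H914 Pool.Agent.H914.VarClass Pool.Agent.H914.VarClass.Obj Pool.Agent.W492.BB
  Pool.Agent.TH133 Pool.Agent.V1157.KF Pool.Agent.V1157.RC Pool.Agent.V1178.FH
open Pool.Agent.V1157.CB (NoTrivialCycles)

/-- Let `P` be a class of varieties of which those of dimension `n` have sufficiently general
complete intersections in `S × S` (`HasIntersection`, a consequence of Bertini's theorem). The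
following are equivalent:

* the varieties of dimension `n` in `P` have no homologically trivial cycles of codimension `m`
  (rational coefficients) except zero;
* for every variety `X` of dimension `n` and all self-correspondences `W_0`, `W_1` of `X` of degree
  zero which factor through varieties of dimension `n` in `P` and satisfy `W_i ∘ W_i = 0`, the
  automorphisms `1 + W_0`, `1 + W_1` satisfy a nontrivial relation on the homologically trivial
  cycles of codimension `m` on `X`: they do not generate freely a free group (`NoFreePairs`);
* for all such `X`, `W_0`, `W_1` and each homologically trivial cycle `x` of codimension `m` on `X`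
  there are a nontrivial element `w` of the free group of rank two and a rational number `q` with
  `w(1 + W_0, 1 + W_1) x = q x` (`NoFreeLines`). -/
theorem result {k : Type u} [Field k] {𝒱 : VarClass k} {C : TheoryData.{u, v, 0} 𝒱 ℚ}
    [IsChowProj C] {K : Type w} [Field K] (H : WeilTheoryData.{u, v, w} C K) [IsWeilProj H]
    (P : 𝒱.Obj → Prop) (n m : ℕ)
    (hI : ∀ S : 𝒱.Obj, P S → S.dim = n → HasIntersection C n S S) :
    List.TFAE [NoTrivialCycles H P n m, NoFreePairs P n (homSub H m),
      NoFreeLines P n (homSub H m)] :=
  main_stable (isStable_homSub H n m) hI

end Pool.Agent.Results.MP_13bc1c_ag.FreeSubgroups
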