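import Pool.Agent.V1157.CB.Main

/-!
# The generalized Bloch conjecture and correspondences which factor through varieties of large
coniveau

Fix the dimension `n`, the codimension `m = n - i` and a class `P` of varieties (for example those
of Hodge coniveau `≥ c`, `c > i`). The following are equivalent:

1. the varieties of dimension `n` in `P` have no homologically trivial cycles of codimension `m`
   (with rational coefficients, except zero);
2. there is a number `D` such that on every variety of dimension `n` the homologically trivial
   cycles of codimension `m` which come from varieties of dimension `n` in `P` through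
   correspondences of degree zero contain at most `D` linearly independent ones;
3. on every variety of dimension `n` the self-correspondences which factor through varieties of
   dimension `n` in `P` commute on the homologically trivial cycles of codimension `m`;
4. they satisfy some non-zero multilinear polynomial identity there.
-/

open CategoryTheory AlgebraicGeometry

universe u v w

namespace Pool.Agent.Results.MP_13bc1c_ag.ThroughSmallConiveau

open Pool.Agent.H914 Pool.Agent.H914.VarClass Pool.Agent.H914.VarClass.Obj Pool.Agent.W492.BB
  Pool.Agent.TH133 Pool.Agent.V1157.KF Pool.Agent.V1157.CB

theorem result {k : Type u} [Field k] {𝒱 : VarClass k} {C : TheoryData.{u, v, 0} 𝒱 ℚ}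
    [IsChowProj C] {K : Type w} [Field K] {H : WeilTheoryData.{u, v, w} C K} [IsWeilProj H]
    (P : 𝒱.Obj → Prop) (n m : ℕ)
    (hB : ∀ (S : 𝒱.Obj) (N : ℕ), P S → S.dim = n → HasPower C n N S) :
    List.TFAE [NoTrivialCycles H P n m, ∃ D, AtMost H P n m D, Commuting H P n m,
      ∃ (d : ℕ) (c : Equiv.Perm (Fin d) → ℚ), c ≠ 0 ∧ Identity H P n m d c] :=
  bloch_main hB

end Pool.Agent.Results.MP_13bc1c_ag.ThroughSmallConiveau
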